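import Pool.Agent.helper12.FI4.SpecX

/-!
# Row `fx:X1` (MP_baa4d7_al)

Transport along `i = X.inc`.
-/

set_option autoImplicit false

namespace Pool.Agent.FI4

open Pool.Agent.helper58.DC Pool.Agent.DI Pool.Agent.GR Pool.Agent.OB Pool.Agent.DR Pool.Agent.FI Pool.Agent.FI3

theorem X1_map {G E : Type} [Group G] [Group E] {i : G →* E} (hi : Function.Injective i) (L : Subgroup G) (g : G) :
    i g ∈ L.map i ↔ g ∈ L := by
  constructor
  · rintro ⟨k, hk, h⟩
    rw [← hi h]
    exact hk
  · intro h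
    exact ⟨g, h, rfl⟩

theorem X1_cc {G E : Type} [Group G] [Group E] {i : G →* E} (hi : Function.Injective i) (ψ : G → ℂ)
    (h1 : ∀ k, ext0 i ψ (i k) = ψ k) (h0 : ∀ x, x ∉ i.range → ext0 i ψ x = 0) (z : E → ℂ) :
    cc (ext0 i ψ) z = cc ψ (fun g => z (i g)) := by
  classical
  unfold cc
  have e1 : ext0 i ψ 1 = ψ 1 := by
    rw [← map_one i, h1]
  rw [e1]
  congr 1
  have e2 : ∑ᶠ x, z x * ext0 i ψ x = ∑ᶠ x ∈ Set.range i, z x * ext0 i ψ x := by
    refine finsum_congr fun x => ?_
    by_cases hx : x ∈ Set.range i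
    · rw [finsum_eq_if, if_pos hx]
    · rw [finsum_eq_if, if_neg hx, h0 x hx, mul_zero]
  rw [e2, finsum_mem_range hi]
  exact finsum_congr fun g => by rw [h1]

theorem X1_nz {G E : Type} [Group G] [Group E] {i : G →* E} (hi : Function.Injective i) (P : Subgroup G) (g : G) :
    i g ∈ nz (P.map i) ↔ g ∈ nz P := by
  rw [Subgroup.mem_normalizer_iff, Subgroup.mem_normalizer_iff]
  constructor
  · intro h k
    have h2 := h (i k)
    rw [← map_mul, ← map_inv, ← map_mul] at h2
    exact ((X1_map hi P k).symm.trans h2).trans (X1_map hi P _)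
  · intro h k
    constructor
    · rintro ⟨x, hx, rfl⟩
      rw [← map_mul, ← map_inv, ← map_mul]
      exact (X1_map hi P _).2 ((h x).1 hx)
    · rintro ⟨x, hx, hk⟩
      have h3 : k = i (g⁻¹ * x * g) := by
        rw [map_mul, map_mul, hk, map_inv]
        group
      rw [h3]
      refine (X1_map hi P _).2 ((h _).2 ?_)
      have h4 : g * (g⁻¹ * x * g) * g⁻¹ = x := by group
      rw [h4]
      exact hx

theorem X1 (hB13 : B13_stmt) : X1_stmt := by
  intro G E A _ _ _ _ _ X M
  have hi := X.inc_injective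
  set i := X.inc with hidef
  have h1 : ∀ (ψ : G → ℂ) (k : G), ext0 i ψ (i k) = ψ k := fun ψ k => ((hB13 G E 0 i hi ⊤).1 ψ).1 k
  have h0 : ∀ (ψ : G → ℂ) (x : E), x ∉ i.range → ext0 i ψ x = 0 := fun ψ x => ((hB13 G E 0 i hi ⊤).1 ψ).2 x
  have hcc : ∀ (ψ : G → ℂ) (z : E → ℂ), cc (ext0 i ψ) z = cc ψ (fun g => z (i g)) :=
    fun ψ z => X1_cc hi ψ (h1 ψ) (h0 ψ) z
  refine ⟨fun L ψ ψ' => ⟨fun h z hz hI => ?_, fun h z hz hI => ?_⟩, fun L ψ y => ?_, fun P => ⟨?_, ?_⟩, fun e P => ?_,
    fun e ψ => ?_, fun p L y => ?_⟩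
  · rw [hcc, hcc]
    refine h _ ⟨fun l hl x => ?_, fun x hx => ?_⟩ fun x => hI _
    · change z (i (l * x * l⁻¹)) = z (i x)
      rw [map_mul, map_mul, map_inv]
      exact hz.1 (i l) ((X1_map hi L l).2 hl) (i x)
    · exact hz.2 _ fun hx' => hx ((X1_map hi L x).1 hx')
  · have h2 := h (ext0 i z) ⟨?_, ?_⟩ ?_
    · rw [hcc, hcc] at h2
      have h3 : (fun g => ext0 i z (i g)) = z := funext fun g => h1 z g
      rw [h3] at h2
      exact h2
    · rintro _ ⟨l, hl, rfl⟩ x
      by_cases hx : x ∈ i.range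
      · obtain ⟨g, rfl⟩ := hx
        rw [← map_mul, ← map_inv, ← map_mul, h1, h1]
        exact hz.1 l hl g
      · rw [h0 z x hx, h0]
        intro hx'
        apply hx
        have h4 : x = (i l)⁻¹ * (i l * x * (i l)⁻¹) * i l := by group
        rw [h4]
        exact mul_mem (mul_mem (inv_mem ⟨l, rfl⟩) hx') ⟨l, rfl⟩
    · intro x hx
      by_cases hx' : x ∈ i.range
      · obtain ⟨g, rfl⟩ := hx'
        rw [h1]
        exact hz.2 g fun hg => hx ((X1_map hi L g).2 hg)
      · exact h0 z x hx'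
    · intro x
      by_cases hx' : x ∈ i.range
      · obtain ⟨g, rfl⟩ := hx'
        rw [h1]
        exact hI g
      · rw [h0 z x hx']
        exact isIntegral_zero
  · rw [hcc]
    congr 1
    funext x
    have h2 : (∃ l ∈ L.map i, l * i y * l⁻¹ = i x) ↔ ∃ l ∈ L, l * y * l⁻¹ = x := by
      constructor
      · rintro ⟨_, ⟨l, hl, rfl⟩, h⟩
        refine ⟨l, hl, hi ?_⟩
        rw [map_mul, map_mul, map_inv]
        exact h
      · rintro ⟨l, hl, h⟩
        refine ⟨i l, ⟨l, hl, rfl⟩, ?_⟩
        rw [← h, map_mul, map_mul, map_inv]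
    change cls (L.map i) (i y) (i x) = cls L y x
    unfold cls
    by_cases hh : ∃ l ∈ L, l * y * l⁻¹ = x
    · rw [if_pos hh, if_pos (h2.2 hh)]
    · rw [if_neg hh, if_neg fun h => hh (h2.1 h)]
  · ext x
    constructor
    · rintro ⟨hx, g, rfl⟩
      refine ⟨g, ?_, rfl⟩
      refine Subgroup.mem_centralizer_iff.2 fun k hk => hi ?_
      have h2 := Subgroup.mem_centralizer_iff.1 hx (i k) ⟨k, hk, rfl⟩
      rw [map_mul, map_mul]
      exact h2
    · rintro ⟨g, hg, rfl⟩
      refine ⟨Subgroup.mem_centralizer_iff.2 ?_, g, rfl⟩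
      rintro _ ⟨k, hk, rfl⟩
      have h2 := Subgroup.mem_centralizer_iff.1 hg k hk
      rw [← map_mul, ← map_mul, h2]
  · ext x
    constructor
    · rintro ⟨hx, g, rfl⟩
      exact ⟨g, (X1_nz hi P g).1 hx, rfl⟩
    · rintro ⟨g, hg, rfl⟩
      exact ⟨(X1_nz hi P g).2 hg, g, rfl⟩
  · constructor
    · intro he d hd
      rw [Subgroup.mem_normalizer_iff] at he
      have h2 := (he (i d)).1 ((X1_map hi P d).2 hd)
      rw [← X.act_spec e d] at h2
      exact (X1_map hi P _).1 h2
    · intro he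
      rw [Subgroup.mem_normalizer_iff]
      have hinj : Function.Injective (fun d : P => (⟨X.act e d, he d d.2⟩ : P)) := by
        intro d d' h
        have h2 := congrArg Subtype.val h
        exact Subtype.ext ((X.act e).injective h2)
      have hsur := Finite.injective_iff_surjective.1 hinj
      intro k
      constructor
      · rintro ⟨x, hx, rfl⟩
        have h2 := X.act_spec e x
        change e * i x * e⁻¹ ∈ P.map i
        rw [← h2]
        exact (X1_map hi P _).2 (he x hx)
      · rintro ⟨x, hx, hk⟩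
        obtain ⟨d, hd⟩ := hsur ⟨x, hx⟩
        have h2 : X.act e d = x := congrArg Subtype.val hd
        have h3 : e * i d * e⁻¹ = e * k * e⁻¹ := by
          rw [← hk, ← h2]
          exact (X.act_spec e d).symm
        have h4 : i d = k := by
          have := mul_right_cancel h3
          exact mul_left_cancel this
        rw [← h4]
        exact (X1_map hi P _).2 d.2
  · exact (hB13 G E 0 i hi ⊤).2.2.2.2.2 ψ (X.act e) e fun k => X.act_spec e k
  · have h2 : Cz (L.map i) (i y) = (Cz L y).map i := by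
      ext x
      constructor
      · rintro ⟨⟨g, hg, rfl⟩, hx⟩
        refine ⟨g, ⟨hg, ?_⟩, rfl⟩
        have hx' : i g ∈ Subgroup.centralizer {i y} := hx
        have hx2 := Subgroup.mem_centralizer_singleton_iff.1 hx'
        change g ∈ Subgroup.centralizer {y}
        refine Subgroup.mem_centralizer_singleton_iff.2 (hi ?_)
        rw [map_mul, map_mul]
        exact hx2
      · rintro ⟨g, ⟨hg, hx⟩, rfl⟩
        refine ⟨⟨g, hg, rfl⟩, ?_⟩
        have hx' : g ∈ Subgroup.centralizer {y} := hx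
        have hx2 := Subgroup.mem_centralizer_singleton_iff.1 hx'
        change i g ∈ Subgroup.centralizer {i y}
        refine Subgroup.mem_centralizer_singleton_iff.2 ?_
        rw [← map_mul, ← map_mul, hx2]
    rw [h2]
    unfold pp
    rw [Nat.card_congr ((Cz L y).equivMapOfInjective i hi).toEquiv.symm]

end Pool.Agent.FI4
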